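import Pool.Agent.Helper15.LR.Defs

set_option autoImplicit false

/-! # LR module F: vertices of nearly maximum degree -/

open Finset Filter
open scoped Classical Topology

namespace Pool.Agent.Helper25.LR

open Pool.Agent.Helper15.LR

noncomputable section

section

variable {V : Type} [Fintype V]

theorem mem_nb {F : Set (Sym2 V)} {v u : V} : u ∈ nb F v ↔ s(v, u) ∈ F := by
  unfold nb
  simp

theorem nb_mono {F F' : Set (Sym2 V)} (h : F ⊆ F') (v : V) : nb F v ⊆ nb F' v := by
  intro u hu
  rw [mem_nb] at hu ⊢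
  exact h hu

theorem dg_mono {F F' : Set (Sym2 V)} (h : F ⊆ F') (v : V) : dg F v ≤ dg F' v :=
  card_le_card (nb_mono h v)

/-- Combining colourings. -/
theorem LC_union {F1 F2 : Set (Sym2 V)} {L : Sym2 V → Finset ℕ} (h1 : LC F1 L)
    (h2 : ∀ L2 : Sym2 V → Finset ℕ, (∀ a b, s(a, b) ∈ F2 →
      (L s(a, b)).card ≤ (L2 s(a, b)).card + dg F1 a + dg F1 b) → LC F2 L2) :
    LC (F1 ∪ F2) L := by
  obtain ⟨f1, hf1, hp1⟩ := h1
  obtain ⟨f2, hf2, hp2⟩ := h2 (fun e => (L e).filter (fun c => ∀ v ∈ e, ∀ u, s(v, u) ∈ F1 →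
    f1 s(v, u) ≠ c)) (by
      intro a b _
      have hsub : L s(a, b) ⊆ ((L s(a, b)).filter (fun c => ∀ v ∈ s(a, b), ∀ u, s(v, u) ∈ F1 →
          f1 s(v, u) ≠ c)) ∪ (nb F1 a).image (fun u => f1 s(a, u)) ∪
          (nb F1 b).image (fun u => f1 s(b, u)) := by
        intro c hc
        by_cases hca : c ∈ (nb F1 a).image (fun u => f1 s(a, u))
        · exact mem_union_left _ (mem_union_right _ hca)
        by_cases hcb : c ∈ (nb F1 b).image (fun u => f1 s(b, u))
        · exact mem_union_right _ hcb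
        refine mem_union_left _ (mem_union_left _ (mem_filter.2 ⟨hc, ?_⟩))
        intro v hv u hu hfc
        rw [Sym2.mem_iff] at hv
        rcases hv with rfl | rfl
        · exact hca (mem_image.2 ⟨u, mem_nb.2 hu, hfc⟩)
        · exact hcb (mem_image.2 ⟨u, mem_nb.2 hu, hfc⟩)
      refine (card_le_card hsub).trans ?_
      refine (card_union_le _ _).trans ?_
      refine Nat.add_le_add ((card_union_le _ _).trans ?_) card_image_le
      exact Nat.add_le_add_left card_image_le _)
  refine ⟨fun e => if e ∈ F1 then f1 e else f2 e, ?_, ?_⟩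
  · intro e he
    by_cases h : e ∈ F1
    · simp only [h, if_true]
      exact hf1 e h
    · simp only [h, if_false]
      have he2 : e ∈ F2 := he.resolve_left h
      exact (mem_filter.1 (hf2 e he2)).1
  · intro u v w huv huw hvw
    by_cases h : s(u, v) ∈ F1
    · by_cases h' : s(u, w) ∈ F1
      · simp only [h, h', if_true]
        exact hp1 u v w h h' hvw
      · simp only [h, h', if_true, if_false]
        have he2 : s(u, w) ∈ F2 := huw.resolve_left h'
        exact (mem_filter.1 (hf2 _ he2)).2 u (Sym2.mem_mk_left u w) v h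
    · have he1 : s(u, v) ∈ F2 := huv.resolve_left h
      by_cases h' : s(u, w) ∈ F1
      · simp only [h, h', if_true, if_false]
        exact ((mem_filter.1 (hf2 _ he1)).2 u (Sym2.mem_mk_left u v) w h').symm
      · simp only [h, h', if_false]
        exact hp2 u v w he1 (huw.resolve_left h') hvw

/-- Greedy colouring. -/
theorem LC_greedy {F : Set (Sym2 V)} {L : Sym2 V → Finset ℕ}
    (h : ∀ a b, s(a, b) ∈ F → dg F a + dg F b ≤ (L s(a, b)).card) : LC F L := by
  have key : ∀ S : Finset (Sym2 V), (S : Set (Sym2 V)) ⊆ F → LC (S : Set (Sym2 V)) L := by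
    intro S
    induction S using Finset.induction_on with
    | empty => exact fun _ => ⟨fun _ => 0, by simp, by simp⟩
    | insert e S he ih =>
      intro hS
      have hS' : (S : Set (Sym2 V)) ⊆ F := fun x hx => hS (by simp [Finset.mem_coe.1 hx])
      have heF : e ∈ F := hS (by simp)
      have e1 : ((insert e S : Finset (Sym2 V)) : Set (Sym2 V)) = (S : Set (Sym2 V)) ∪ {e} := by
        rw [coe_insert, Set.insert_eq, Set.union_comm]
      rw [e1]
      refine LC_union (ih hS') ?_
      intro L2 hL2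
      induction e using Sym2.ind with
      | _ a b =>
        have h3 := hL2 a b rfl
        have h4 : dg (S : Set (Sym2 V)) a < dg F a := by
          refine card_lt_card ⟨nb_mono hS' a, fun hh => ?_⟩
          have := hh (mem_nb.2 heF)
          rw [mem_nb] at this
          exact he (Finset.mem_coe.1 this)
        have h5 := dg_mono hS' b
        have h6 := h a b heF
        have h7 : 0 < (L2 s(a, b)).card := by omega
        obtain ⟨c, hc⟩ := card_pos.1 h7
        refine ⟨fun _ => c, ?_, ?_⟩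
        · intro e' he'
          rw [Set.mem_singleton_iff] at he'
          rw [he']
          exact hc
        · intro u v w h8 h9 hvw
          rw [Set.mem_singleton_iff] at h8 h9
          rw [← h9] at h8
          exact absurd (Sym2.congr_right.1 h8) hvw
  have := key F.toFinset (by simp)
  simpa using this

/-- Colourings of an induced subgraph. -/
theorem LC_sub {p : V → Prop} {F : Set (Sym2 V)} {L : Sym2 V → Finset ℕ}
    (hF : ∀ u v, s(u, v) ∈ F → p u ∧ p v)
    (h : LC (V := {v // p v}) {e | e.map Subtype.val ∈ F} (fun e => L (e.map Subtype.val))) :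
    LC F L := by
  obtain ⟨f, hf, hp⟩ := h
  have hinj : Function.Injective (Sym2.map (Subtype.val : {v // p v} → V)) :=
    Sym2.map.injective Subtype.val_injective
  set g : Sym2 V → ℕ := fun e => if h : ∃ e' : Sym2 {v // p v}, e'.map Subtype.val = e then
    f h.choose else 0 with hg
  have hg' : ∀ e' : Sym2 {v // p v}, g (e'.map Subtype.val) = f e' := by
    intro e'
    have hex : ∃ e'' : Sym2 {v // p v}, e''.map Subtype.val = e'.map Subtype.val := ⟨e', rfl⟩
    rw [hg]
    simp only [hex, dif_pos]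
    rw [hinj hex.choose_spec]
  have hlift : ∀ u v (hu : p u) (hv : p v),
      s(u, v) = (s(⟨u, hu⟩, ⟨v, hv⟩) : Sym2 {v // p v}).map Subtype.val := by
    intro u v hu hv
    rfl
  refine ⟨g, ?_, ?_⟩
  · intro e he
    induction e using Sym2.ind with
    | _ a b =>
      obtain ⟨ha, hb⟩ := hF a b he
      rw [hlift a b ha hb] at he ⊢
      rw [hg']
      exact hf _ he
  · intro u v w h1 h2 hvw
    obtain ⟨hu, hv⟩ := hF u v h1
    obtain ⟨_, hw⟩ := hF u w h2
    rw [hlift u v hu hv] at h1 ⊢
    rw [hlift u w hu hw] at h2 ⊢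
    rw [hg', hg']
    exact hp _ _ _ h1 h2 (fun h => hvw (congrArg Subtype.val h))

theorem LC_mono {F : Set (Sym2 V)} {L L' : Sym2 V → Finset ℕ} (h : ∀ e ∈ F, L e ⊆ L' e)
    (hL : LC F L) : LC F L' := by
  obtain ⟨f, hf, hp⟩ := hL
  exact ⟨f, fun e he => h e he (hf e he), hp⟩

end

/-- Elementary asymptotics. -/
theorem asym : ∀ᶠ n : ℕ in atTop, 400 ≤ n ∧ 200 * Real.sqrt n ≤ SS n ∧ SS n ≤ (n : ℝ) / 8 ∧
    Real.sqrt n ≤ (n : ℝ) / 16 := by
  have h1 : ∀ᶠ n : ℕ in atTop, (200 : ℝ) ^ 2 ≤ Real.log n :=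
    (Real.tendsto_log_atTop.comp tendsto_natCast_atTop_atTop).eventually_ge_atTop _
  have h2 : ∀ᶠ n : ℕ in atTop, Real.log n ≤ (1 / 64) * (n : ℝ) := by
    have := (Real.isLittleO_log_id_atTop.comp_tendsto tendsto_natCast_atTop_atTop).def
      (show (0 : ℝ) < 1 / 64 by norm_num)
    filter_upwards [this, eventually_ge_atTop 1] with n hn hn1
    simp only [Function.comp, id] at hn
    have h3 : 0 ≤ Real.log n := Real.log_nonneg (by exact_mod_cast hn1)
    rw [Real.norm_of_nonneg h3, Real.norm_of_nonneg (by positivity)] at hn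
    exact hn
  filter_upwards [h1, h2, eventually_ge_atTop 400] with n h1 h2 h3
  have hn : (400 : ℝ) ≤ n := by exact_mod_cast h3
  refine ⟨h3, ?_, ?_, ?_⟩
  · unfold SS
    have : (200 : ℝ) * Real.sqrt n = Real.sqrt (n * 200 ^ 2) := by
      rw [Real.sqrt_mul (by positivity), Real.sqrt_sq (by norm_num), mul_comm]
    rw [this]
    exact Real.sqrt_le_sqrt (mul_le_mul_of_nonneg_left h1 (by positivity))
  · unfold SS
    rw [Real.sqrt_le_left (by positivity)]
    calc (n : ℝ) * Real.log n ≤ n * ((1 / 64) * n) := mul_le_mul_of_nonneg_left h2 (by positivity)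
      _ = (n / 8 : ℝ) ^ 2 := by ring
  · rw [Real.sqrt_le_left (by positivity)]
    nlinarith

theorem SS_nonneg (n : ℕ) : 0 ≤ SS n := Real.sqrt_nonneg _

theorem SS_mono {a b : ℕ} (ha : 1 ≤ a) (h : a ≤ b) : SS a ≤ SS b := by
  unfold SS
  have ha' : (1 : ℝ) ≤ a := by exact_mod_cast ha
  have hb : (a : ℝ) ≤ b := by exact_mod_cast h
  exact Real.sqrt_le_sqrt (mul_le_mul hb (Real.log_le_log (by linarith) hb)
    (Real.log_nonneg ha') (by linarith))

/-- `SS a ≥ (3/4) SS n` if `a ≥ (15/16) n`. -/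
theorem SS_ge {a n : ℕ} (hn : 400 ≤ n) (h : (15 / 16 : ℝ) * n ≤ a) (h' : a ≤ n) :
    (3 / 4 : ℝ) * SS n ≤ SS a := by
  have hn' : (400 : ℝ) ≤ n := by exact_mod_cast hn
  have ha : (0 : ℝ) < a := by linarith
  have hln : 0 ≤ Real.log n := Real.log_nonneg (by linarith)
  have h1 : (3 / 4 : ℝ) * Real.log n ≤ Real.log a := by
    have h2 : Real.log n ≤ 4 * Real.log (16 / 15) + 4 * (Real.log n - Real.log (16 / 15)) -
        3 * Real.log n := by linarith
    have h3 : Real.log (15 / 16 * n) ≤ Real.log a := Real.log_le_log (by positivity) h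
    rw [Real.log_mul (by norm_num) (by positivity)] at h3
    have h4 : Real.log (16 / 15) ≤ (1 / 4) * Real.log n := by
      have : Real.log ((16 / 15 : ℝ) ^ 4) ≤ Real.log n :=
        Real.log_le_log (by norm_num) (by norm_num; linarith)
      rw [Real.log_pow] at this
      push_cast at this
      linarith
    have h5 : Real.log (15 / 16 : ℝ) = - Real.log (16 / 15) := by
      rw [← Real.log_inv]; norm_num
    linarith
  unfold SS
  have e : (3 / 4 : ℝ) * Real.sqrt (n * Real.log n) =
      Real.sqrt ((3 / 4) ^ 2 * (n * Real.log n)) := by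
    rw [Real.sqrt_mul (x := (3 / 4 : ℝ) ^ 2) (by positivity), Real.sqrt_sq (by norm_num)]
  rw [e]
  refine Real.sqrt_le_sqrt ?_
  have h6 : (3 / 4 : ℝ) * n ≤ a := by linarith
  calc (3 / 4 : ℝ) ^ 2 * (n * Real.log n) = (3 / 4 * n) * (3 / 4 * Real.log n) := by ring
    _ ≤ a * Real.log a := mul_le_mul h6 h1 (by positivity) (by positivity)

/-- F. -/
theorem F (hB : BlockGalvin_stmt) (hM : Main_stmt) : Top_stmt := by
  unfold Top_stmt
  obtain ⟨N, hN⟩ := eventually_atTop.1 (hM (1 / 100) 4 (by norm_num) (by norm_num))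
  filter_upwards [asym, eventually_ge_atTop (2 * N)] with n hasym hnN
  obtain ⟨hn400, hs1, hs2, hs3⟩ := hasym
  intro V _ G L Δ hV hdeg hΔ hΔ' hbig hfew hQ hL
  have hn : (400 : ℝ) ≤ n := by exact_mod_cast hn400
  have hSS := SS_nonneg n
  have hsq : (0 : ℝ) ≤ Real.sqrt n := Real.sqrt_nonneg _
  -- the set of vertices of large degree
  set H : Finset V := univ.filter (fun v => (Δ : ℝ) - SS n / 50 < (dg G.edgeSet v : ℝ)) with hH
  have hHcard : (H.card : ℝ) ≤ Real.sqrt n := by
    refine le_trans ?_ hfew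
    norm_cast
    refine card_le_card (fun v hv => ?_)
    rw [hH, mem_filter] at hv
    rw [mem_filter]
    refine ⟨mem_univ _, ?_⟩
    linarith [hv.2]
  have hΔup : (Δ : ℝ) ≤ n / 2 + SS n := by
    obtain ⟨v, hv⟩ := hΔ'
    have := (abs_le.1 (hdeg v)).2
    rw [hv] at this
    linarith
  -- the three parts
  set F1 : Set (Sym2 V) := {e | e ∈ G.edgeSet ∧ ∀ v ∈ e, v ∈ H} with hF1
  set F2 : Set (Sym2 V) := {e | e ∈ G.edgeSet ∧ (∃ v ∈ e, v ∈ H) ∧ (∃ v ∈ e, v ∉ H)} with hF2
  set F3 : Set (Sym2 V) := {e | e ∈ G.edgeSet ∧ ∀ v ∈ e, v ∉ H} with hF3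
  have hU : G.edgeSet = (F1 ∪ F2) ∪ F3 := by
    ext e
    simp only [hF1, hF2, hF3, Set.mem_union, Set.mem_setOf_eq]
    constructor
    · intro he
      by_cases h1 : ∀ v ∈ e, v ∈ H
      · exact Or.inl (Or.inl ⟨he, h1⟩)
      by_cases h2 : ∀ v ∈ e, v ∉ H
      · exact Or.inr ⟨he, h2⟩
      push Not at h1 h2
      exact Or.inl (Or.inr ⟨he, h2, h1⟩)
    · rintro ((h | h) | h)
      · exact h.1
      · exact h.1
      · exact h.1
  have hmem1 : ∀ a b, s(a, b) ∈ F1 ↔ s(a, b) ∈ G.edgeSet ∧ a ∈ H ∧ b ∈ H := by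
    intro a b
    simp only [hF1, Set.mem_setOf_eq, Sym2.mem_iff]
    constructor
    · rintro ⟨h1, h2⟩
      exact ⟨h1, h2 a (Or.inl rfl), h2 b (Or.inr rfl)⟩
    · rintro ⟨h1, h2, h3⟩
      refine ⟨h1, ?_⟩
      rintro v (rfl | rfl)
      · exact h2
      · exact h3
  have hmem3 : ∀ a b, s(a, b) ∈ F3 ↔ s(a, b) ∈ G.edgeSet ∧ a ∉ H ∧ b ∉ H := by
    intro a b
    simp only [hF3, Set.mem_setOf_eq, Sym2.mem_iff]
    constructor
    · rintro ⟨h1, h2⟩
      exact ⟨h1, h2 a (Or.inl rfl), h2 b (Or.inr rfl)⟩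
    · rintro ⟨h1, h2, h3⟩
      refine ⟨h1, ?_⟩
      rintro v (rfl | rfl)
      · exact h2
      · exact h3
  have hmem2 : ∀ a b, s(a, b) ∈ F2 ↔ s(a, b) ∈ G.edgeSet ∧ (a ∈ H ∧ b ∉ H ∨ a ∉ H ∧ b ∈ H) := by
    intro a b
    simp only [hF2, Set.mem_setOf_eq, Sym2.mem_iff]
    constructor
    · rintro ⟨h1, ⟨v, rfl | rfl, hv⟩, ⟨w, rfl | rfl, hw⟩⟩
      · exact absurd hv hw
      · exact ⟨h1, Or.inl ⟨hv, hw⟩⟩
      · exact ⟨h1, Or.inr ⟨hw, hv⟩⟩
      · exact absurd hv hw
    · rintro ⟨h1, ⟨h2, h3⟩ | ⟨h2, h3⟩⟩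
      · exact ⟨h1, ⟨a, Or.inl rfl, h2⟩, ⟨b, Or.inr rfl, h3⟩⟩
      · exact ⟨h1, ⟨b, Or.inr rfl, h3⟩, ⟨a, Or.inl rfl, h2⟩⟩
  have hHn : (H.card : ℝ) ≤ n / 16 := hHcard.trans hs3
  have hHΔ : 4 * H.card ≤ Δ := by
    have : (4 * H.card : ℝ) ≤ Δ := by linarith
    exact_mod_cast this
  -- degrees
  have hd1 : ∀ a, dg F1 a ≤ H.card := by
    intro a
    refine card_le_card (fun u hu => ?_)
    rw [mem_nb, hmem1] at hu
    exact hu.2.2
  have hd1' : ∀ a ∉ H, dg F1 a = 0 := by
    intro a ha
    unfold dg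
    rw [card_eq_zero, eq_empty_iff_forall_notMem]
    intro u hu
    rw [mem_nb, hmem1] at hu
    exact ha hu.2.1
  have hd2 : ∀ a ∉ H, dg F2 a ≤ H.card := by
    intro a ha
    refine card_le_card (fun u hu => ?_)
    rw [mem_nb, hmem2] at hu
    rcases hu.2 with h | h
    · exact absurd h.1 ha
    · exact h.2
  have hd12 : ∀ a ∈ H, dg F1 a + dg F2 a ≤ dg G.edgeSet a := by
    intro a ha
    unfold dg
    rw [← card_union_of_disjoint]
    · refine card_le_card (fun u hu => ?_)
      rw [mem_union, mem_nb, mem_nb, hmem1, hmem2] at hu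
      rw [mem_nb]
      rcases hu with hu | hu
      · exact hu.1
      · exact hu.1
    · rw [Finset.disjoint_left]
      intro u hu hu'
      rw [mem_nb, hmem1] at hu
      rw [mem_nb, hmem2] at hu'
      rcases hu'.2 with h | h
      · exact h.2 hu.2.2
      · exact h.1 ha
  have hd12' : ∀ a ∉ H, dg (F1 ∪ F2) a ≤ H.card := by
    intro a ha
    refine card_le_card (fun u hu => ?_)
    rw [mem_nb, Set.mem_union, hmem1, hmem2] at hu
    rcases hu with hu | hu
    · exact hu.2.2
    · rcases hu.2 with h | h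
      · exact absurd h.1 ha
      · exact h.2
  rw [hU]
  refine LC_union (LC_union (LC_greedy ?_) ?_) ?_
  · -- greedy
    intro a b hab
    have h1 := hL _ ((hmem1 a b).1 hab).1
    have h2 := hd1 a
    have h3 := hd1 b
    omega
  · -- Galvin
    intro L2 hL2
    refine hB V F2 (fun v => decide (v ∈ H)) L2 (fun _ => 0) ?_ ?_
    · intro u v huv
      rw [hmem2] at huv
      rcases huv.2 with h | h <;> simp [h.1, h.2]
    · intro a b hab ha hb
      simp only [decide_eq_true_eq, decide_eq_false_iff_not] at ha hb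
      have h1 := hL2 a b hab
      have h2 := hL _ ((hmem2 a b).1 hab).1
      have h3 := hd1' b hb
      have h4 := hd12 a ha
      have h5 := hΔ a
      have h6 := hd2 b hb
      have h7 := hd1 a
      simp only [lt_irrefl, filter_false, card_empty, filter_true]
      have e1 : (nb F2 a).card = dg F2 a := rfl
      have e2 : (nb F2 b).card = dg F2 b := rfl
      rw [e1, e2]
      have h8 : max (dg F2 a) (dg F2 b) ≤ (L2 s(a, b)).card := max_le (by omega) (by omega)
      omega
  · -- the rest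
    intro L3 hL3
    have hL3' : ∀ e ∈ F3, Δ - 2 * H.card ≤ (L3 e).card := by
      intro e he
      induction e using Sym2.ind with
      | _ a b =>
        have h1 := hL3 a b he
        obtain ⟨h2, h3, h4⟩ := (hmem3 a b).1 he
        have h5 := hL _ h2
        have h6 := hd12' a h3
        have h7 := hd12' b h4
        omega
    -- truncation
    have htr : ∀ e : Sym2 V, ∃ S : Finset ℕ, S ⊆ L3 e ∧ (e ∈ F3 → S.card = Δ - 2 * H.card) := by
      intro e
      by_cases he : e ∈ F3
      · obtain ⟨S, hS, hS'⟩ := exists_subset_card_eq (hL3' e he)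
        exact ⟨S, hS, fun _ => hS'⟩
      · exact ⟨∅, empty_subset _, fun h => absurd h he⟩
    choose T hT hT' using htr
    refine LC_mono (L := T) (fun e _ => hT e) ?_
    refine LC_sub (p := fun v => v ∉ H) (fun u v huv => ((hmem3 u v).1 huv).2) ?_
    set V' := {v // v ∉ H} with hV'
    set G' : SimpleGraph V' := G.comap Subtype.val with hG'
    have hE : {e : Sym2 V' | e.map Subtype.val ∈ F3} = G'.edgeSet := by
      ext e
      induction e using Sym2.ind with
      | _ a b =>
        rw [Set.mem_setOf_eq, Sym2.map_mk, SimpleGraph.mem_edgeSet]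
        rw [hmem3, SimpleGraph.mem_edgeSet]
        constructor
        · intro h
          exact h.1
        · intro h
          exact ⟨h, a.2, b.2⟩
    have hcard : Fintype.card V' = n - H.card := by
      have h0 : Fintype.card V' = Fintype.card V - Fintype.card {v // v ∈ H} :=
        Fintype.card_subtype_compl _
      rw [h0, hV, Fintype.card_coe]
    have hHle : H.card ≤ n := by
      have : (H.card : ℝ) ≤ n := by linarith
      exact_mod_cast this
    have hcR : ((Fintype.card V' : ℕ) : ℝ) = n - H.card := by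
      rw [hcard, Nat.cast_sub hHle]
    have hcge : (15 / 16 : ℝ) * n ≤ ((Fintype.card V' : ℕ) : ℝ) := by
      rw [hcR]; linarith
    have hcN : N ≤ Fintype.card V' := by
      have h1 : (2 * N : ℝ) ≤ n := by exact_mod_cast hnN
      have h2 : (N : ℝ) ≤ ((Fintype.card V' : ℕ) : ℝ) := by linarith
      exact_mod_cast h2
    have hcle : Fintype.card V' ≤ n := by rw [hcard]; exact Nat.sub_le _ _
    have hc1 : 1 ≤ Fintype.card V' := by
      have h2 : (1 : ℝ) ≤ ((Fintype.card V' : ℕ) : ℝ) := by linarith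
      exact_mod_cast h2
    have hSS1 := SS_mono hc1 hcle
    have hSS2 := SS_ge hn400 hcge hcle
    have hm : ((Δ - 2 * H.card : ℕ) : ℝ) = Δ - 2 * H.card := by
      rw [Nat.cast_sub (by omega)]
      push_cast
      ring
    -- degrees in `G'`
    have hdeg1 : ∀ v : V', dg G'.edgeSet v ≤ dg G.edgeSet v.1 := by
      intro v
      unfold dg
      rw [← card_map (Function.Embedding.subtype _)]
      refine card_le_card (fun u hu => ?_)
      rw [Finset.mem_map] at hu
      obtain ⟨w, hw, rfl⟩ := hu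
      rw [mem_nb, SimpleGraph.mem_edgeSet] at hw
      rw [mem_nb, SimpleGraph.mem_edgeSet]
      exact hw
    have hdeg2 : ∀ v : V', dg G.edgeSet v.1 ≤ dg G'.edgeSet v + H.card := by
      intro v
      unfold dg
      rw [← card_map (s := nb G'.edgeSet v) (Function.Embedding.subtype _)]
      refine le_trans (card_le_card ?_) (card_union_le _ _)
      intro u hu
      rw [mem_union]
      by_cases h : u ∈ H
      · exact Or.inr h
      · left
        rw [Finset.mem_map]
        refine ⟨⟨u, h⟩, ?_, rfl⟩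
        rw [mem_nb, SimpleGraph.mem_edgeSet] at hu
        rw [mem_nb, SimpleGraph.mem_edgeSet]
        exact hu
    rw [hE]
    refine hN (Fintype.card V') hcN V' G' (Δ - 2 * H.card) _ rfl ?_ ?_ ?_ ?_ ?_ ?_
    · rw [hm, hcR]
      linarith
    · have : ((Δ - 2 * H.card : ℕ) : ℝ) ≤ ((Fintype.card V' : ℕ) : ℝ) := by
        rw [hm, hcR]
        linarith
      exact_mod_cast this
    · intro e he
      rw [← hE] at he
      exact hT' _ he
    · intro v
      have h1 : (dg G'.edgeSet v : ℝ) ≤ dg G.edgeSet v.1 := by exact_mod_cast hdeg1 v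
      have h2 : ¬ ((Δ : ℝ) - SS n / 50 < (dg G.edgeSet v.1 : ℝ)) := by
        intro h
        exact v.2 (mem_filter.2 ⟨mem_univ _, h⟩)
      rw [not_lt] at h2
      rw [hm]
      linarith
    · intro v
      have h1 : (dg G.edgeSet v.1 : ℝ) ≤ dg G'.edgeSet v + H.card := by exact_mod_cast hdeg2 v
      have h2 := (abs_le.1 (hdeg v.1)).1
      rw [hm]
      linarith
    · -- quasirandomness
      intro X Y hXY
      have h1 := hQ (X.map (Function.Embedding.subtype _)) (Y.map (Function.Embedding.subtype _))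
        ((Finset.disjoint_map _).2 hXY)
      rw [card_map, card_map] at h1
      have h2 : ((X.map (Function.Embedding.subtype fun v => v ∉ H) ×ˢ
          Y.map (Function.Embedding.subtype fun v => v ∉ H)).filter
          (fun p => G.Adj p.1 p.2)).card ≤
          ((X ×ˢ Y).filter (fun p => G'.Adj p.1 p.2)).card := by
        have hinj : Function.Injective (fun p : V' × V' => (p.1.1, p.2.1)) := by
          intro p q hpq
          have := Prod.ext_iff.1 hpq
          exact Prod.ext (Subtype.ext this.1) (Subtype.ext this.2)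
        rw [← card_map ⟨_, hinj⟩]
        refine card_le_card (fun p hp => ?_)
        rw [mem_filter, mem_product, Finset.mem_map, Finset.mem_map] at hp
        obtain ⟨⟨⟨x, hx, hx'⟩, ⟨y, hy, hy'⟩⟩, hadj⟩ := hp
        rw [Finset.mem_map]
        refine ⟨(x, y), ?_, ?_⟩
        · rw [mem_filter, mem_product]
          refine ⟨⟨hx, hy⟩, ?_⟩
          show G.Adj x.1 y.1
          have hx'' : x.1 = p.1 := hx'
          have hy'' : y.1 = p.2 := hy'
          rw [hx'', hy'']
          exact hadj
        · exact Prod.ext hx' hy'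
      have h3 : (((X.map (Function.Embedding.subtype fun v => v ∉ H) ×ˢ
          Y.map (Function.Embedding.subtype fun v => v ∉ H)).filter
          (fun p => G.Adj p.1 p.2)).card : ℝ) ≤
          (((X ×ˢ Y).filter (fun p => G'.Adj p.1 p.2)).card : ℝ) := by exact_mod_cast h2
      have h4 : (n : ℝ) ^ 2 / 10 ^ 5 ≤ ((Fintype.card V' : ℕ) : ℝ) ^ 2 / 10 ^ 4 := by
        have h5 : ((15 / 16 : ℝ) * n) ^ 2 ≤ ((Fintype.card V' : ℕ) : ℝ) ^ 2 :=
          pow_le_pow_left₀ (by positivity) hcge 2
        nlinarith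
      have h6 : (1 / 2 : ℝ) * X.card * Y.card - ((Fintype.card V' : ℕ) : ℝ) ^ 2 / 10 ^ 4 ≤
          (((X ×ˢ Y).filter (fun p => G'.Adj p.1 p.2)).card : ℝ) := by
        refine le_trans ?_ (le_trans h1 ?_)
        · linarith
        · convert h3 using 3
      convert h6 using 3
      ext p
      simp only [mem_filter]

end

end Pool.Agent.Helper25.LR
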